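import Pool.Agent.H.MP_f4a04c_gt.C

set_option autoImplicit false

namespace Pool.Agent.Results.MP_f4a04c_gt.Exists

/-- Euclidean three-space -/
abbrev E := EuclideanSpace ℝ (Fin 3)

/-- `(ρ, x)` is an `S`-copy in `K`: `ρ ∈ SO(3)` and `ρ(S) + x ⊆ K`. -/
def IsCopy (S K : Set E) (ρ : Matrix (Fin 3) (Fin 3) ℝ) (x : E) : Prop :=
  ρ ∈ Matrix.specialOrthogonalGroup (Fin 3) ℝ ∧ (fun v => Matrix.toEuclideanLin ρ v + x) '' S ⊆ K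

/-- `K` contains a translate of every rotated copy of `S`. -/
def IsKakeya (S K : Set E) : Prop :=
  ∀ ρ ∈ Matrix.specialOrthogonalGroup (Fin 3) ℝ, ∃ x, IsCopy S K ρ x

/-- two copies can be rotated into each other within `K`. -/
def Rotatable (S K : Set E) (ρ₀ : Matrix (Fin 3) (Fin 3) ℝ) (x₀ : E)
    (ρ₁ : Matrix (Fin 3) (Fin 3) ℝ) (x₁ : E) : Prop :=
  ∃ γ : ℝ → Matrix (Fin 3) (Fin 3) ℝ, ∃ δ : ℝ → E,
    ContinuousOn γ (Set.Icc 0 1) ∧ ContinuousOn δ (Set.Icc 0 1) ∧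
    γ 0 = ρ₀ ∧ γ 1 = ρ₁ ∧ δ 0 = x₀ ∧ δ 1 = x₁ ∧ ∀ t ∈ Set.Icc (0 : ℝ) 1, IsCopy S K (γ t) (δ t)

/-- the Kakeya rotation property -/
def RotationProperty (S : Set E) : Prop :=
  ∀ K : Set E, Convex ℝ K → IsCompact K → K.Nonempty → IsKakeya S K →
    ∀ ρ₀ x₀ ρ₁ x₁, IsCopy S K ρ₀ x₀ → IsCopy S K ρ₁ x₁ → Rotatable S K ρ₀ x₀ ρ₁ x₁

open Pool.Agent.H.KRot in
/-- There is a convex body `S` in `ℝ³` without the Kakeya rotation property. -/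
theorem result : ∃ S : Set E, Convex ℝ S ∧ IsCompact S ∧ S.Nonempty ∧ ¬ RotationProperty S := by
  refine ⟨SS, SS_convex, SS_compact, ⟨_, pp_mem e0_norm⟩, fun h => ?_⟩
  obtain ⟨x₀, h₀⟩ := (rot_of (one_mem _)).exist
  obtain ⟨x₁, h₁⟩ := (rot_of quarter_mem).exist
  obtain ⟨γ, δ, a, b, c, d, -, -, e⟩ := h KK KK_convex KK_compact
    ⟨_, h₀ ⟨_, pp_mem e0_norm, rfl⟩⟩
    (fun ρ hρ => let ⟨x, hx⟩ := (rot_of hρ).exist; ⟨x, hρ, hx⟩) 1 x₀ quarter x₁ ⟨one_mem _, h₀⟩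
    ⟨quarter_mem, h₁⟩
  exact no_path γ δ a b c d e

end Pool.Agent.Results.MP_f4a04c_gt.Exists
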